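import Mathlib

namespace Pool.Agent.H.MP_59d57e_an

open ComplexConjugate Finset

noncomputable abbrev B := Metric.ball (0 : EuclideanSpace ℂ (Fin 2)) 1

noncomputable abbrev L := lp (fun _ : ℕ × ℕ => ℂ) 2

lemma hs (x : L) : HasSum (fun i => ‖x i‖ ^ 2) (‖x‖ ^ 2) := by
  simpa using lp.hasSum_norm (p := 2) (by norm_num) x

lemma mem {x : ℕ × ℕ → ℂ} (h : Summable fun i => ‖x i‖ ^ 2) : Memℓp x 2 :=
  memℓp_gen (by simpa using h)

lemma shift {σ : ℕ × ℕ → ℕ × ℕ} (hσ : Function.Injective σ) {w : ℕ × ℕ → ℝ}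
    (hw : ∀ i, w i ^ 2 ≤ 1) : ∃ A : L →L[ℂ] L, ∀ x i, A x i = w i * x (σ i) := by
  have b : ∀ (x : L) i, ‖(w i : ℂ) * x (σ i)‖ ^ 2 ≤ ‖x (σ i)‖ ^ 2 := fun x i => by
    rw [norm_mul, mul_pow, Complex.norm_real, Real.norm_eq_abs, sq_abs]
    exact mul_le_of_le_one_left (by positivity) (hw i)
  have s : ∀ x : L, Summable fun i => ‖x (σ i)‖ ^ 2 := fun x => (hs x).summable.comp_injective hσ
  let A : L →ₗ[ℂ] L :=
    { toFun := fun x => ⟨fun i => w i * x (σ i),
        mem ((s x).of_nonneg_of_le (fun _ => by positivity) (b x))⟩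
      map_add' := fun x y => by ext i; simp [mul_add]
      map_smul' := fun c x => by ext i; simp [mul_left_comm] }
  refine ⟨A.mkContinuous 1 fun x => ?_, fun _ _ => rfl⟩
  rw [one_mul]
  refine abs_le_of_sq_le_sq' ?_ (norm_nonneg _) |>.2
  refine (hasSum_le (b x) (hs (A x)) (s x).hasSum).trans ?_
  rw [← (hs x).tsum_eq]
  exact tsum_comp_le_tsum_of_inj (hs x).summable (fun _ => by positivity) hσ

def cc (i : ℕ × ℕ) : ℕ := (i.1 + i.2 + 1) * (i.1 + i.2).choose i.1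

lemma ser {x y : ℂ} (h : ‖x‖ + ‖y‖ < 1) :
    HasSum (fun i : ℕ × ℕ => (cc i : ℂ) * (x ^ i.1 * y ^ i.2)) ((1 - (x + y)) ^ 2)⁻¹ := by
  have e := HasAntidiagonal.sigmaAntidiagonalEquivProd (A := ℕ)
  have f : ∀ {R : Type} [CommRing R] (x y : R) (n : ℕ),
      ∑ i : antidiagonal n, (cc i.1 : R) * (x ^ i.1.1 * y ^ i.1.2) =
        ((n + 1).choose 1 : ℕ) * (x + y) ^ n := fun x y n => by
    rw [sum_coe_sort (antidiagonal n) fun i => (cc i : _) * (x ^ i.1 * y ^ i.2),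
      (Commute.all x y).add_pow', mul_sum]
    refine sum_congr rfl fun i hi => ?_
    rw [cc, mem_antidiagonal.1 hi]
    simp [mul_assoc]
  have s : Summable fun i : ℕ × ℕ => (cc i : ℂ) * (x ^ i.1 * y ^ i.2) := by
    refine .of_norm ((HasAntidiagonal.sigmaAntidiagonalEquivProd (A := ℕ)).summable_iff.1
      ((summable_sigma_of_nonneg fun _ => norm_nonneg _).2 ⟨fun _ => .of_finite, ?_⟩))
    refine (hasSum_choose_mul_geometric_of_norm_lt_one 1 (r := ‖x‖ + ‖y‖)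
      (by rwa [Real.norm_of_nonneg (by positivity)])).summable.congr fun n => ?_
    rw [← f, tsum_fintype]
    simp [HasAntidiagonal.sigmaAntidiagonalEquivProd]
  have t := ((HasAntidiagonal.sigmaAntidiagonalEquivProd (A := ℕ)).hasSum_iff.2 s.hasSum).sigma
    (g := fun n => ((n + 1).choose 1 : ℕ) * (x + y) ^ n) fun n => by
      rw [← f]; exact hasSum_fintype _
  rw [← one_div, ← t.unique (hasSum_choose_mul_geometric_of_norm_lt_one 1
    ((norm_add_le _ _).trans_lt h))]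
  exact s.hasSum

lemma ball (z : B) : ‖z.1 0‖ ^ 2 + ‖z.1 1‖ ^ 2 < 1 := by
  have := mem_ball_zero_iff.1 z.2
  rw [← Fin.sum_univ_two fun i => ‖z.1 i‖ ^ 2, ← EuclideanSpace.norm_sq_eq]
  nlinarith [norm_nonneg z.1]

lemma ball2 (z w : B) : ‖z.1 0 * conj (w.1 0)‖ + ‖z.1 1 * conj (w.1 1)‖ < 1 := by
  simp only [norm_mul, Complex.norm_conj]
  nlinarith [ball z, ball w, sq_nonneg (‖z.1 0‖ - ‖w.1 0‖), sq_nonneg (‖z.1 1‖ - ‖w.1 1‖)]

noncomputable def kv (z : B) : L :=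
  ⟨fun i => √(cc i) * (conj (z.1 0) ^ i.1 * conj (z.1 1) ^ i.2), mem (by
    refine (ser (ball2 z z)).summable.norm.congr fun i => ?_
    simp only [norm_mul, norm_pow, Complex.norm_conj, Complex.norm_real, Complex.norm_natCast,
      Real.norm_eq_abs, mul_pow, sq_abs, Real.sq_sqrt (Nat.cast_nonneg (cc i))]
    ring)⟩

lemma kv_inner (z w : B) : inner ℂ (kv z) (kv w) =
    ((1 - (z.1 0 * conj (w.1 0) + z.1 1 * conj (w.1 1))) ^ 2)⁻¹ := by
  refine (lp.hasSum_inner (𝕜 := ℂ) _ _).unique ((ser (ball2 z w)).congr_fun fun i => ?_)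
  have : ((√(cc i) : ℝ) : ℂ) * √(cc i) = cc i := by
    rw [← Complex.ofReal_mul, Real.mul_self_sqrt (Nat.cast_nonneg _), Complex.ofReal_natCast]
  simp only [kv, RCLike.inner_apply, map_mul, map_pow, Complex.conj_conj, Complex.conj_ofReal,
    mul_pow, ← this]
  ring

lemma ops : ∃ A : Fin 2 → L →L[ℂ] L, (∀ i z, A i (kv z) = conj (z.1 i) • kv z) ∧
    ∀ x y, ‖A 0 x + A 1 y‖ ^ 2 ≤ ‖x‖ ^ 2 + ‖y‖ ^ 2 := by
  have i0 : Function.Injective fun i : ℕ × ℕ => (i.1 + 1, i.2) := fun i j h => by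
    simpa [Prod.ext_iff] using h
  have i1 : Function.Injective fun i : ℕ × ℕ => (i.1, i.2 + 1) := fun i j h => by
    simpa [Prod.ext_iff] using h
  have q : ∀ a b : ℕ, √((a + 1) / (a + b + 2)) ^ 2 + √((b + 1) / (a + b + 2)) ^ 2 = 1 :=
    fun a b => by
      rw [Real.sq_sqrt (by positivity), Real.sq_sqrt (by positivity)]
      field_simp
      ring
  obtain ⟨A0, h0⟩ := shift i0 (w := fun i => √((i.1 + 1) / (i.1 + i.2 + 2))) fun i => by
    nlinarith [q i.1 i.2, sq_nonneg √((i.2 + 1) / (i.1 + i.2 + 2))]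
  obtain ⟨A1, h1⟩ := shift i1 (w := fun i => √((i.2 + 1) / (i.1 + i.2 + 2))) fun i => by
    nlinarith [q i.1 i.2, sq_nonneg √((i.1 + 1) / (i.1 + i.2 + 2))]
  refine ⟨![A0, A1], fun i z => ?_, fun x y => ?_⟩
  · ext ⟨a, b⟩
    have c0 : √((a + 1) / (a + b + 2)) * √(cc (a + 1, b)) = √(cc (a, b)) := by
      rw [← Real.sqrt_mul (by positivity), div_mul_eq_mul_div, div_eq_of_eq_mul (by positivity)]
      have := Nat.add_one_mul_choose_eq (a + b) a
      simp only [cc, add_right_comm a 1 b, this]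
      push_cast
      ring
    have c1 : √((b + 1) / (a + b + 2)) * √(cc (a, b + 1)) = √(cc (a, b)) := by
      rw [← Real.sqrt_mul (by positivity), div_mul_eq_mul_div, div_eq_of_eq_mul (by positivity)]
      have := Nat.choose_mul_succ_eq (a + b) a
      rw [show a + b + 1 - a = b + 1 by omega, mul_comm] at this
      simp only [cc, ← add_assoc a b 1, this]
      push_cast
      ring
    fin_cases i
    · simp only [Fin.zero_eta, Matrix.cons_val_zero, h0, kv, lp.coeFn_smul, Pi.smul_apply, ← c0,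
        smul_eq_mul]
      push_cast
      ring
    · simp only [Fin.mk_one, Matrix.cons_val_one, Matrix.cons_val_zero, h1, kv, lp.coeFn_smul,
        Pi.smul_apply, ← c1, smul_eq_mul]
      push_cast
      ring
  · have s0 := (hs x).summable.comp_injective i0
    have s1 := (hs y).summable.comp_injective i1
    refine (hasSum_le (fun i => ?_) (hs _) (s0.hasSum.add s1.hasSum)).trans (add_le_add ?_ ?_)
    · simp only [Matrix.cons_val_one, Matrix.cons_val_zero, lp.coeFn_add, Pi.add_apply, h0, h1,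
        Function.comp]
      refine (pow_le_pow_left₀ (norm_nonneg _) (norm_add_le _ _) 2).trans ?_
      simp only [norm_mul, Complex.norm_real, Real.norm_of_nonneg (Real.sqrt_nonneg _)]
      have := q i.1 i.2
      generalize √((i.1 + 1) / (i.1 + i.2 + 2)) = s at *
      generalize √((i.2 + 1) / (i.1 + i.2 + 2)) = t at *
      nlinarith [sq_nonneg (s * ‖y (i.1, i.2 + 1)‖ - t * ‖x (i.1 + 1, i.2)‖)]
    · rw [← (hs x).tsum_eq]
      exact tsum_comp_le_tsum_of_inj (hs x).summable (fun _ => by positivity) i0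
    · rw [← (hs y).tsum_eq]
      exact tsum_comp_le_tsum_of_inj (hs y).summable (fun _ => by positivity) i1

noncomputable abbrev HH := (Submodule.span ℂ (Set.range kv)).topologicalClosure

lemma kv_mem (z : B) : kv z ∈ HH :=
  Submodule.le_topologicalClosure _ (Submodule.subset_span ⟨z, rfl⟩)

noncomputable instance : RKHS ℂ HH B ℂ where
  coeCLM := ContinuousLinearMap.pi fun z => innerSL ℂ (kv z) ∘L HH.subtypeL
  coeCLM_injective := by
    refine (injective_iff_map_eq_zero _).2 fun f hf => Subtype.ext ?_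
    have : f.1 ∈ HHᗮ := by
      rw [Submodule.orthogonal_closure]
      refine fun u hu => Submodule.span_induction (fun x ⟨z, hz⟩ => ?_) (inner_zero_left _)
        (fun x y _ _ a b => by rw [inner_add_left, a, b, add_zero])
        (fun c x _ a => by rw [inner_smul_left, a, mul_zero]) hu
      exact hz ▸ congrFun hf z
    exact inner_self_eq_zero.1 (this _ f.2)

lemma ap (f : HH) (z : B) : f z = inner ℂ (kv z) f.1 := rfl

lemma sm (a : ℂ) (f : HH) (z : B) : (a • f) z = a * f z := inner_smul_right (kv z) f.1 a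

theorem ker (z w : B) : RKHS.kernel HH z w 1 =
    ((1 - (z.1 0 * conj (w.1 0) + z.1 1 * conj (w.1 1))) ^ 2)⁻¹ := by
  have : RKHS.kerFun HH w 1 = ⟨kv w, kv_mem w⟩ := ext_inner_right ℂ fun f => by
    rw [RKHS.kerFun_inner, ap]
    simp [Submodule.coe_inner]
  rw [← RKHS.kerFun_apply, this, ap, kv_inner]

theorem col (f : HH) : ∃ g : Fin 2 → HH, (∀ i z, g i z = z.1 i * f z) ∧
    ‖g 0‖ ^ 2 + ‖g 1‖ ^ 2 ≤ ‖f‖ ^ 2 := by
  obtain ⟨A, h, r⟩ := ops
  refine ⟨fun i => HH.orthogonalProjectionOnto ((A i).adjoint f.1), fun i z => ?_, ?_⟩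
  · rw [ap, ap, show kv z = (⟨kv z, kv_mem z⟩ : HH).1 from rfl, ← Submodule.coe_inner,
      Submodule.inner_orthogonalProjectionOnto_eq_of_mem_left, ContinuousLinearMap.adjoint_inner_right,
      h, inner_smul_left, Complex.conj_conj]
  · have p : ∀ x, ‖HH.orthogonalProjectionOnto x‖ ^ 2 ≤ ‖x‖ ^ 2 := fun x =>
      pow_le_pow_left₀ (norm_nonneg _) (HH.norm_orthogonalProjectionOnto_apply_le x) 2
    refine (add_le_add (p _) (p _)).trans ?_
    have a := r ((A 0).adjoint f.1) ((A 1).adjoint f.1)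
    have b := re_inner_le_norm (𝕜 := ℂ) (A 0 ((A 0).adjoint f.1) + A 1 ((A 1).adjoint f.1)) f.1
    rw [inner_add_left, ← ContinuousLinearMap.adjoint_inner_right (A 0),
      ← ContinuousLinearMap.adjoint_inner_right (A 1), map_add, inner_self_eq_norm_sq,
      inner_self_eq_norm_sq] at b
    change _ ≤ ‖f.1‖ ^ 2
    nlinarith [sq_nonneg (‖A 0 ((A 0).adjoint f.1) + A 1 ((A 1).adjoint f.1)‖ - ‖f.1‖)]

lemma bessel {m : ℕ} {G : ℂ → ℂ} (hG : Differentiable ℂ G) (A : ℂ) (t s : Fin m → ℂ) (c : ℝ)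
    (h : ∀ l : ℂ, ‖l‖ = 1 → ‖A + l * G l‖ ^ 2 ≤ c * ∑ j, ‖t j + s j * l‖ ^ 2) :
    ‖A‖ ^ 2 + ‖G 0‖ ^ 2 ≤ c * ∑ j, (‖t j‖ ^ 2 + ‖s j‖ ^ 2) := by
  have := Complex.norm_le_of_forall_mem_frontier_norm_le (U := Metric.ball 0 1)
    Metric.isBounded_ball (f := fun l => Complex.exp (2 * ((A + l * G l) * conj A +
      G l * conj (G 0)) - 2 * c * ∑ j, conj (t j) * s j * l))
    (Differentiable.diffContOnCl (by fun_prop))
    (C := Real.exp (‖A‖ ^ 2 + ‖G 0‖ ^ 2 + c * ∑ j, (‖t j‖ ^ 2 + ‖s j‖ ^ 2))) (fun l hl => ?_)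
    (subset_closure (Metric.mem_ball_self one_pos))
  · rw [Complex.norm_exp, Real.exp_le_exp] at this
    simp [Complex.mul_conj, Complex.normSq_eq_norm_sq, ← Complex.ofReal_pow] at this
    linarith
  rw [frontier_ball _ one_ne_zero, mem_sphere_zero_iff_norm] at hl
  have a := h l hl
  have n : l.re * l.re + l.im * l.im = 1 := by
    rw [← Complex.normSq_apply, Complex.normSq_eq_norm_sq, hl, one_pow]
  have b : ∑ j, ‖t j + s j * l‖ ^ 2 =
      ∑ j, (‖t j‖ ^ 2 + ‖s j‖ ^ 2) + 2 * (∑ j, conj (t j) * s j * l).re := by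
    rw [Complex.re_sum, mul_sum, ← sum_add_distrib]
    refine sum_congr rfl fun j _ => ?_
    simp only [Complex.sq_norm, Complex.normSq_apply]
    simp
    linear_combination ((s j).re ^ 2 + (s j).im ^ 2) * n
  rw [Complex.norm_exp, Real.exp_le_exp]
  rw [b] at a
  generalize ∑ j, conj (t j) * s j * l = S at *
  generalize ∑ j, (‖t j‖ ^ 2 + ‖s j‖ ^ 2) = N at *
  simp only [Complex.sq_norm, Complex.normSq_apply] at a ⊢
  simp at a ⊢
  have e : ((G l).re ^ 2 + (G l).im ^ 2) * (l.re * l.re + l.im * l.im) =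
    (G l).re ^ 2 + (G l).im ^ 2 := by rw [n, mul_one]
  nlinarith [sq_nonneg ((G l).re - (G 0).re), sq_nonneg ((G l).im - (G 0).im)]

open MvPolynomial

lemma slice (v : Fin 2 → ℂ) (p : MvPolynomial (Fin 2) ℂ) : ∃ r : ℂ → ℂ, Differentiable ℂ r ∧
    (∀ l, eval (l • v) p = coeff 0 p + l * r l) ∧
      r 0 = v 0 * coeff (Finsupp.single 0 1) p + v 1 * coeff (Finsupp.single 1 1) p := by
  induction p using MvPolynomial.induction_on with
  | C a => exact ⟨0, differentiable_zero, by simp, by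
      simp [coeff_C, (Finsupp.single_ne_zero.2 one_ne_zero).symm]⟩
  | add p q hp hq =>
    obtain ⟨r, r1, r2, r3⟩ := hp
    obtain ⟨s, s1, s2, s3⟩ := hq
    exact ⟨r + s, r1.add s1, fun l => by simp [r2, s2]; ring, by simp [r3, s3]; ring⟩
  | mul_X p i hp =>
    obtain ⟨r, r1, r2, r3⟩ := hp
    refine ⟨fun l => (coeff 0 p + l * r l) * v i, by fun_prop, fun l => ?_, ?_⟩
    · simp [r2, coeff_mul_X']; ring
    · fin_cases i <;> simp [coeff_mul_X'] <;> ring

lemma mult (p : MvPolynomial (Fin 2) ℂ) (f : HH) : ∃ g : HH, ∀ z : B, g z = eval z.1 p * f z := by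
  induction p using MvPolynomial.induction_on with
  | C a => exact ⟨a • f, by simp [sm]⟩
  | add p q hp hq =>
    obtain ⟨r, hr⟩ := hp
    obtain ⟨s, hs⟩ := hq
    exact ⟨r + s, fun z => by simp [hr, hs, add_mul]⟩
  | mul_X p i hp =>
    obtain ⟨r, hr⟩ := hp
    obtain ⟨g, hg, -⟩ := col r
    exact ⟨g i, fun z => by simp [hg, hr]; ring⟩

lemma lower {m : ℕ} (p : Fin m → MvPolynomial (Fin 2) ℂ) {c : ℝ} (c0 : 0 ≤ c)
    (h : ∀ (f : Fin m → HH) (g : HH), (∀ z : B, g z = ∑ j, eval z.1 (p j) * f j z) →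
      ‖g‖ ^ 2 ≤ c * ∑ j, ‖f j‖ ^ 2) (z : B) : ∑ j, ‖eval z.1 (p j)‖ ^ 2 ≤ c := by
  obtain ⟨k, hk⟩ : ∃ k : HH, k = ⟨kv z, kv_mem z⟩ := ⟨_, rfl⟩
  have e : ∀ f : HH, f z = inner ℂ k f := fun f => by rw [hk]; rfl
  have k0 : 0 < ‖k‖ := norm_pos_iff.2 fun h0 => by
    have := kv_inner z z
    rw [show kv z = k.1 by rw [hk], h0, ZeroMemClass.coe_zero, inner_zero_left, eq_comm,
      inv_eq_zero, pow_eq_zero_iff two_ne_zero, sub_eq_zero] at this
    have b := (norm_add_le _ _).trans_lt (ball2 z z)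
    rw [← this, norm_one] at b
    exact lt_irrefl _ b
  choose g hg using fun j => mult (p j) (conj (eval z.1 (p j)) • k)
  have s : ∀ w : B, (∑ j, g j) w = ∑ j, g j w := fun w => by
    rw [← RKHS.coeCLM_apply, map_sum, Finset.sum_apply]; rfl
  have a := h _ (∑ j, g j) fun w => (s w).trans (sum_congr rfl fun j _ => hg j w)
  have b := norm_inner_le_norm (𝕜 := ℂ) k (∑ j, g j)
  have d : (∑ j, g j) z = ((∑ j, ‖eval z.1 (p j)‖ ^ 2) * ‖k‖ ^ 2 : ℝ) := by
    simp only [s, hg, sm, ← mul_assoc, Complex.mul_conj',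
      e k, ← sum_mul]
    push_cast
    exact congrArg _ (inner_self_eq_norm_sq_to_K (𝕜 := ℂ) k)
  rw [← e, d, Complex.norm_real, Real.norm_of_nonneg (by positivity)] at b
  simp only [norm_smul, mul_pow, Complex.norm_conj, ← sum_mul] at a
  have S0 : 0 ≤ ∑ j, ‖eval z.1 (p j)‖ ^ 2 := by positivity
  generalize ∑ j, ‖eval z.1 (p j)‖ ^ 2 = S at *
  have b' : S * ‖k‖ ≤ ‖∑ j, g j‖ := le_of_mul_le_mul_left (by nlinarith) k0
  have := (pow_le_pow_left₀ (by positivity) b' 2).trans a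
  rcases S0.eq_or_lt with z | z
  · rwa [← z]
  · exact le_of_mul_le_mul_right (a := S * ‖k‖ ^ 2) (by nlinarith) (by positivity)

lemma lower' {m : ℕ} (p : Fin m → MvPolynomial (Fin 2) ℂ) {c : ℝ}
    (h : ∀ z : B, ∑ j, ‖eval z.1 (p j)‖ ^ 2 ≤ c) (v : Fin 2 → ℂ)
    (hv : ‖v 0‖ ^ 2 + ‖v 1‖ ^ 2 ≤ 1) : ∑ j, ‖eval v (p j)‖ ^ 2 ≤ c := by
  have : (WithLp.toLp 2 v : EuclideanSpace ℂ (Fin 2)) ∈ closure B := by
    rw [closure_ball _ one_ne_zero, mem_closedBall_zero_iff]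
    refine abs_le_of_sq_le_sq' ?_ zero_le_one |>.2
    rwa [EuclideanSpace.norm_sq_eq, Fin.sum_univ_two, one_pow]
  refine closure_minimal (t := {z : EuclideanSpace ℂ (Fin 2) | ∑ j, ‖eval z (p j)‖ ^ 2 ≤ c})
    (fun z hz => h ⟨z, hz⟩) (isClosed_le ?_ continuous_const) this
  exact continuous_finsetSum _ fun j _ =>
    ((MvPolynomial.continuous_eval _).comp (by fun_prop)).norm.pow 2

end Pool.Agent.H.MP_59d57e_an
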